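import Pool.Agent.Helper60.PlzA.Goals

/-!
# Packet BTWO of project PLA (MP_8e7d5e_co)
-/

set_option autoImplicit false

namespace Pool.Agent.Helper16.PlzA

open Finset Pool.Agent.Helper60.PlzA

open scoped Classical

theorem cod_le {V : Type} [Fintype V] (G : SimpleGraph V) (a b : V) : cod G a b ≤ dgr G a := by
  unfold cod dgr cmn nbs
  exact card_le_card fun w hw => by
    rw [mem_filter] at hw ⊢
    exact ⟨hw.1, hw.2.1⟩

theorem card_wk (h2 : S_WINU) {V : Type} [Fintype V] (G : SimpleGraph V) (t : ℕ)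
    (hd : ∀ v, dgr G v ≤ t) (L : ℕ) : ((Wk G L).card : ℝ) ≤ (t : ℝ) ^ L * Fintype.card V := by
  have h := h2 V _ G t hd L 0 0 (Nat.zero_le _) (fun _ => 1) (fun _ => zero_le_one)
  rw [sum_const, sum_const, nsmul_eq_mul, nsmul_eq_mul, mul_one, mul_one, Nat.sub_zero] at h
  refine h.trans (mul_le_mul_of_nonneg_left ?_ (by positivity))
  have : (Wk G 0).card ≤ Fintype.card V := by
    refine (card_le_univ _).trans ?_
    rw [Fintype.card_fun]
    simp
  exact_mod_cast this

/-- PACKET BTWO. -/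
theorem btwo (h1 : S_PAIR) (h2 : S_WINU) : S_BTWO := by
  intro V _ G t γ hR L hL
  have ht : (0 : ℝ) ≤ t := Nat.cast_nonneg t
  have hγt : 0 ≤ γ * t := le_trans zero_le_one hR.one
  set F : V → V → ℝ := fun a b => if (a, b) ∈ bad G t γ then (t : ℝ) else 0 with hF
  have hF0 : ∀ a b, 0 ≤ F a b := by
    intro a b
    simp only [hF]
    split_ifs
    · exact ht
    · exact le_rfl
  have hcod : ∀ a b, (cod G a b : ℝ) ≤ t := fun a b => by
    exact_mod_cast (cod_le G a b).trans (hR.deg a)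
  have hstep : ∀ y ∈ Wk G L, (if ev y 0 ≠ ev y L ∧ ¬ G.Adj (ev y 0) (ev y L) then
      (cod G (ev y 0) (ev y L) : ℝ) else 0) ≤ F (ev y 0) (ev y L) + γ * t := by
    intro y _
    have h0 := hF0 (ev y 0) (ev y L)
    split_ifs with hc
    · by_cases hb : γ * t ≤ cod G (ev y 0) (ev y L)
      · have hm : (ev y 0, ev y L) ∈ bad G t γ := by
          unfold bad
          rw [mem_filter]
          exact ⟨mem_univ _, hc.1, hc.2, hb⟩
        have : F (ev y 0) (ev y L) = t := by
          simp only [hF]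
          rw [if_pos hm]
        rw [this]
        have := hcod (ev y 0) (ev y L)
        linarith
      · push Not at hb
        linarith
    · linarith
  refine (sum_le_sum hstep).trans ?_
  rw [sum_add_distrib]
  have e1 := h1 V _ G t hR.deg L hL F hF0
  have e2 : ∑ a, ∑ b, F a b = t * (bad G t γ).card := by
    rw [← sum_product' (s := univ) (t := univ) (f := F)]
    have : ∀ p : V × V, F p.1 p.2 = if p ∈ bad G t γ then (t : ℝ) else 0 := fun p => rfl
    rw [sum_congr rfl fun p _ => this p, ← sum_filter, sum_const, nsmul_eq_mul, mul_comm]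
    congr 2
    congr 1
    ext p
    rw [mem_filter]
    exact ⟨fun h => h.2, fun h => ⟨mem_product.mpr ⟨mem_univ _, mem_univ _⟩, h⟩⟩
  have e3 := card_wk h2 G t hR.deg L
  have e4 : ∑ _y ∈ Wk G L, γ * (t : ℝ) = (Wk G L).card * (γ * t) := by
    rw [sum_const, nsmul_eq_mul]
  rw [e4]
  have e5 : (t : ℝ) ^ (L - 1) * (t * (bad G t γ).card) ≤ (t : ℝ) ^ (L - 1) * (t * (γ * t * Fintype.card V)) :=
    mul_le_mul_of_nonneg_left (mul_le_mul_of_nonneg_left hR.few ht) (by positivity)
  have e6 : (t : ℝ) ^ (L - 1) * (t * (γ * t * Fintype.card V)) = γ * Fintype.card V * (t : ℝ) ^ (L + 1) := by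
    obtain ⟨l, rfl⟩ := Nat.exists_eq_add_of_le hL
    have : 1 + l - 1 = l := by omega
    rw [this]
    ring
  have e7 : ((Wk G L).card : ℝ) * (γ * t) ≤ (t : ℝ) ^ L * Fintype.card V * (γ * t) :=
    mul_le_mul_of_nonneg_right e3 hγt
  have e8 : (t : ℝ) ^ L * Fintype.card V * (γ * t) = γ * Fintype.card V * (t : ℝ) ^ (L + 1) := by ring
  rw [e2] at e1
  linarith

end Pool.Agent.Helper16.PlzA
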